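import Pool.Agent.Helper91_PrimePoly.System
import Pool.Agent.Helper91_PrimePoly.Lower

set_option autoImplicit false

namespace Pool.Agent.Results.MP_e935e7_lc.LeastDegree

/-- The least total degree of a prime-representing polynomial is exactly 4. -/
theorem result : IsLeast
    {d : ℕ | ∃ (n : ℕ) (f : MvPolynomial (Fin n) ℤ), f.totalDegree = d ∧
      ∀ p : ℕ, 0 < p →
        ((∃ x : Fin n → ℕ, MvPolynomial.eval (fun i => (x i : ℤ)) f = (p : ℤ)) ↔ p.Prime)}
    4 := by
  constructor
  · obtain ⟨n, f, hf, hrep⟩ := Pool.Agent.Helper91_PrimePoly.prime_quartic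
    exact ⟨n, f, le_antisymm hf (Pool.Agent.Helper91_PrimePoly.four_le_totalDegree n f hrep), hrep⟩
  · rintro d ⟨n, f, rfl, hrep⟩
    exact Pool.Agent.Helper91_PrimePoly.four_le_totalDegree n f hrep

end Pool.Agent.Results.MP_e935e7_lc.LeastDegree
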